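import Pool.Agent.H78.GS.TF3

/-!
# Theorem (G), section 3a, row FNUM: sheets at fractions with bounded denominators are impossible
-/

set_option autoImplicit false

open Finset Pool.Agent.H6.N4D Pool.Agent.H78.GS

namespace Pool.Agent.H85.GS3

lemma num_FA (S : Par) (θ φ : ℤ → ℕ → ℝ) (F : ℤ → Finset ℕ) (T : ℝ) (b a r₀ : ℕ) (t : ℤ)
    (h : F t ⊆ range r₀) : ‖FA S θ φ F T b a t‖ ≤ r₀ := by
  classical
  unfold FA
  refine (norm_sum_le _ _).trans ?_
  rw [sum_congr rfl (fun j _ => norm_ee _), sum_const, nsmul_eq_mul, mul_one]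
  have := card_le_card ((filter_subset (fun j => nd (fh S θ T t j - (a : ℝ) / b) ≤
    1 / (4 * (S.rho * S.x t))) (F t)).trans h)
  rw [card_range] at this
  convert (Nat.cast_le (α := ℝ)).2 this

lemma num_HC (S : Par) (θ φ : ℤ → ℕ → ℝ) (F : ℤ → Finset ℕ) (T : ℝ) (b r₀ : ℕ)
    (χ : DirichletCharacter ℂ b) (t : ℤ) (h : F t ⊆ range r₀) :
    ‖HC S θ φ F T b χ t‖ ≤ b * r₀ := by
  unfold HC
  refine (norm_sum_le _ _).trans ?_
  calc ∑ a ∈ range b, ‖χ (a : ZMod b) * FA S θ φ F T b a t‖ ≤ ∑ _a ∈ range b, (r₀ : ℝ) := by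
        refine sum_le_sum fun a _ => ?_
        rw [norm_mul]
        have h1 := χ.norm_le_one (a : ZMod b)
        have h2 := num_FA S θ φ F T b a r₀ t h
        have h3 := norm_nonneg (FA S θ φ F T b a t)
        nlinarith [norm_nonneg (χ (a : ZMod b))]
    _ = b * r₀ := by rw [sum_const, card_range, nsmul_eq_mul]

lemma num_sh (S : Par) (θ φ : ℤ → ℕ → ℝ) (F : ℤ → Finset ℕ) (T ζ : ℝ) (b : ℕ)
    (χ : DirichletCharacter ℂ b) (t t' : ℤ)
    (h : ∀ a, ‖FA S θ φ F T b a t' - FA S θ φ F T b a t‖ ≤ ζ) :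
    ‖HC S θ φ F T b χ t' - HC S θ φ F T b χ t‖ ≤ b * ζ := by
  unfold HC
  rw [← sum_sub_distrib]
  refine (norm_sum_le _ _).trans ?_
  calc ∑ a ∈ range b, ‖χ (a : ZMod b) * FA S θ φ F T b a t' -
        χ (a : ZMod b) * FA S θ φ F T b a t‖ ≤ ∑ _a ∈ range b, ζ := by
        refine sum_le_sum fun a _ => ?_
        rw [← mul_sub, norm_mul]
        have h1 := χ.norm_le_one (a : ZMod b)
        have h2 := h a
        have h3 := norm_nonneg (FA S θ φ F T b a t' - FA S θ φ F T b a t)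
        nlinarith [norm_nonneg (χ (a : ZMod b))]
    _ = b * ζ := by rw [sum_const, card_range, nsmul_eq_mul]

lemma num_In (S : Par) (hh : 0 < S.h) (hKL : 0 ≤ S.K * S.L)
    (hI1 : 12 * S.K * S.L ≤ S.N * S.h) (hN : 0 ≤ S.N) :
    5 / 6 * S.N - 2 ≤ ((In S 1).card : ℝ) := by
  classical
  have hq : 0 ≤ S.K * S.L / S.h := div_nonneg hKL hh.le
  have hq2 : S.K * S.L / S.h ≤ S.N / 12 := by
    rw [div_le_iff₀ hh]
    linarith
  obtain ⟨m, hm⟩ : ∃ m : ℕ, m = ⌈S.K * S.L / S.h⌉₊ := ⟨_, rfl⟩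
  have hm1 : S.K * S.L / S.h ≤ m := by rw [hm]; exact Nat.le_ceil _
  have hm2 : (m : ℝ) < S.K * S.L / S.h + 1 := by rw [hm]; exact Nat.ceil_lt_add_one hq
  have hsub : S.I ⊆ In S 1 ∪ (Ico S.a (S.a + m) ∪ Ico (S.b - m) S.b) := by
    intro t ht
    rw [mem_union, mem_union, mem_Ico, mem_Ico]
    have ht' := Par.mem_I.1 ht
    by_cases h1 : S.K * S.L ≤ ((t : ℝ) - S.a) * S.h
    · by_cases h2 : S.K * S.L ≤ ((S.b : ℝ) - t) * S.h
      · left
        unfold In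
        rw [mem_filter]
        exact ⟨ht, by rw [one_mul]; exact h1, by rw [one_mul]; exact h2⟩
      · right; right
        push Not at h2
        have h3 : (S.b : ℝ) - t < S.K * S.L / S.h := by rwa [lt_div_iff₀ hh]
        have h4 : ((S.b - t : ℤ) : ℝ) < ((m : ℤ) : ℝ) := by
          push_cast
          linarith
        have h5 : S.b - t < m := by exact_mod_cast h4
        omega
    · right; left
      push Not at h1
      have h3 : (t : ℝ) - S.a < S.K * S.L / S.h := by rwa [lt_div_iff₀ hh]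
      have h4 : ((t - S.a : ℤ) : ℝ) < ((m : ℤ) : ℝ) := by
        push_cast
        linarith
      have h5 : t - S.a < m := by exact_mod_cast h4
      omega
  have hc := card_le_card hsub
  have hc2 := card_union_le (In S 1) (Ico S.a (S.a + m) ∪ Ico (S.b - m) S.b)
  have hc3 := card_union_le (Ico S.a (S.a + m)) (Ico (S.b - m) S.b)
  rw [Int.card_Ico, Int.card_Ico] at hc3
  have hc4 : S.I.card ≤ (In S 1).card + 2 * m := by omega
  have hc5 : (S.I.card : ℝ) ≤ (In S 1).card + 2 * m := by exact_mod_cast hc4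
  rw [Par.card_I hN] at hc5
  linarith

theorem pf_NUM (hFAE : T_FAE) (hFAS : T_FAS) (hHCE : T_HCE) (hMAS : T_MAS)
    (hFINX : Pool.Agent.H83.GS.T_FINX) (hCTP : T_CTP) (hSIZ : T_SIZ) (hWTS : T_WTS) :
    T_NUM := by
  classical
  obtain ⟨B, hB2, hF⟩ := hFINX
  intro b₀ r₀ hb₀ hr₀
  obtain ⟨W, hW⟩ : ∃ W : ℝ, W = ∑ b ∈ Icc 1 b₀,
    ((univ : Finset (DirichletCharacter ℂ b)).card : ℝ) := ⟨_, rfl⟩
  have hW0 : 0 ≤ W := by rw [hW]; exact sum_nonneg fun b _ => Nat.cast_nonneg _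
  have hb₀r : (1 : ℝ) ≤ b₀ := by exact_mod_cast hb₀
  have hr₀r : (1 : ℝ) ≤ r₀ := by exact_mod_cast hr₀
  have hM : (1 : ℝ) ≤ b₀ * r₀ := one_le_mul_of_one_le_of_one_le hb₀r hr₀r
  have hη : 0 < 1 / (4 * (W + 1)) := by positivity
  have hηW : W * (1 / (4 * (W + 1))) ≤ 1 / 4 := by
    rw [mul_one_div, div_le_iff₀ (by positivity)]
    linarith
  obtain ⟨c₂, K₀, hc₂, hBK, hF⟩ := hF b₀ (b₀ * r₀) (1 / (4 * (W + 1))) hM hη
  have hBr : (0 : ℝ) ≤ B := Nat.cast_nonneg B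
  have hζ : 0 < c₂ / b₀ := by positivity
  refine ⟨min (1 / 100) (c₂ / (10 * (B + 2))), min (c₂ / b₀ / 40) (1 / 32), max K₀ 1,
    by positivity, by positivity, ?_⟩
  intro K e₁ ν hK he₁ he₁' hν hν'
  have hK₀ : K₀ ≤ K := (le_max_left _ _).trans hK
  have hK1 : 1 ≤ K := (le_max_right _ _).trans hK
  obtain ⟨X₁, hF⟩ := hF K hK₀
  obtain ⟨X₂, hFAE⟩ := hFAE K b₀ (c₂ / b₀) hK1 hζ
  obtain ⟨X₃, hFAS⟩ := hFAS K b₀ (c₂ / b₀) hK1 hζ
  obtain ⟨X₄, hSIZ⟩ := hSIZ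
  obtain ⟨X₅, hW5⟩ := hWTS.2.1 B (by omega)
  obtain ⟨X₆, hLL⟩ := LL_large b₀
  refine ⟨max X₁ (max X₂ (max X₃ (max X₄ (max X₅ X₆)))), ?_⟩
  intro S Δ s e e₀ κ T F θ φ hSK hX hC he he₀ hκ hT hbad
  have hX₁ : X₁ ≤ S.X := (le_max_left _ _).trans hX
  have hX' := (le_max_right _ _).trans hX
  have hX₂ : X₂ ≤ S.X := (le_max_left _ _).trans hX'
  have hX'' := (le_max_right _ _).trans hX'
  have hX₃ : X₃ ≤ S.X := (le_max_left _ _).trans hX''
  have hX3 := (le_max_right _ _).trans hX''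
  have hX₄ : X₄ ≤ S.X := (le_max_left _ _).trans hX3
  have hX4 := (le_max_right _ _).trans hX3
  have hX₅ : X₅ ≤ S.X := (le_max_left _ _).trans hX4
  have hX₆ : X₆ ≤ S.X := (le_max_right _ _).trans hX4
  obtain ⟨hL1, hP100, -, hrho, hhrho, -, -, -, -, -, -, hN0, -⟩ := hSIZ S hC.ok hX₄
  have hh : 0 < S.h := hC.ok.hh
  have hΔ : 0 ≤ Δ := by
    have h1 : (0 : ℝ) < Δ * S.h := by linarith [hC.d1]
    have h2 : (0 : ℝ) < Δ := pos_of_mul_pos_left h1 hh.le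
    exact_mod_cast h2.le
  have hN2def : (cut S Δ).N = S.N - 2 * Δ := by
    unfold cut Par.N
    push_cast
    ring
  have h12 : 12 * (S.K * S.L) ≤ S.N * S.h - 2 * (Δ * S.h) := by
    have h1 : 12 * (cut S Δ).K * (cut S Δ).L ≤ (cut S Δ).N * (cut S Δ).h := hC.ok2.hI1
    have h2 : (cut S Δ).K = S.K := rfl
    have h3 : (cut S Δ).L = S.L := rfl
    have h4 : (cut S Δ).h = S.h := rfl
    rw [h2, h3, h4, hN2def] at h1
    linarith
  obtain ⟨-, -, hN2, -, hN13, hsub, -, hcnt, -⟩ := hCTP S Δ hC.ok hΔ h12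
  obtain ⟨N₂, hN₂⟩ : ∃ N₂ : ℝ, N₂ = (cut S Δ).N := ⟨_, rfl⟩
  have hKr : (1 : ℝ) ≤ S.K := by exact_mod_cast hC.ok.hK
  have hKL1 : 1 ≤ (S.K : ℝ) * S.L := one_le_mul_of_one_le_of_one_le hKr hL1
  have hrho4 : S.rho ^ 4 ≤ 1 / 10000 := by
    have h0 : 0 ≤ S.rho := hC.ok.hr0.le
    have h1 := pow_le_pow_left₀ h0 hrho 4
    norm_num at h1
    linarith
  have hN2big : 1200 ≤ (cut S Δ).N := by
    have h1 : 12 ≤ (cut S Δ).N * S.h := by
      rw [hN2def]
      linarith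
    have h2 : S.h ≤ 1 / 10000 := hhrho.trans hrho4
    have h3 : (cut S Δ).N * S.h ≤ (cut S Δ).N * (1 / 10000) :=
      mul_le_mul_of_nonneg_left h2 hN2
    linarith
  have hκ₃ : min (1 / 100) (c₂ / (10 * ((B : ℝ) + 2))) ≤ 1 / 100 := min_le_left _ _
  have hκ₃' : min (1 / 100) (c₂ / (10 * ((B : ℝ) + 2))) ≤ c₂ / (10 * ((B : ℝ) + 2)) :=
    min_le_right _ _
  obtain ⟨k₃, hk₃⟩ : ∃ k₃ : ℝ, k₃ = min (1 / 100) (c₂ / (10 * ((B : ℝ) + 2))) := ⟨_, rfl⟩
  rw [← hk₃] at he hκ hbad hκ₃ hκ₃'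
  have hk0 : 0 < k₃ := by rw [hk₃]; positivity
  have hkB : k₃ * (B + 2) ≤ c₂ / 10 := by
    rw [le_div_iff₀ (by positivity)] at hκ₃'
    linarith
  have hkB0 : 0 ≤ k₃ * B := mul_nonneg hk0.le hBr
  have hk25 : k₃ * (25 / 12) ≤ c₂ := by
    clear hT hbad hC
    linarith
  have hk13 : k₃ * (13 / 12 + B) ≤ c₂ := by
    clear hT hbad hC
    linarith
  have he₁ζ : e₁ ≤ c₂ / b₀ / 40 := he₁'.trans (min_le_left _ _)
  have he₁32 : e₁ ≤ 1 / 32 := he₁'.trans (min_le_right _ _)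
  have he₀ζ : e₀ ≤ c₂ / b₀ / 40 := he₀.trans (min_le_left _ _)
  have he₀32 : e₀ ≤ 1 / 32 := he₀.trans (min_le_right _ _)
  have hN13' : e * S.N ≤ k₃ * (13 / 12 * (cut S Δ).N) :=
    mul_le_mul he hN13 hN0.le hk0.le
  have hκN : κ * S.N ≤ k₃ * (13 / 12 * (cut S Δ).N) :=
    mul_le_mul hκ hN13 hN0.le hk0.le
  have hFr : ∀ t, ¬ (∃ j ∈ F t, ∀ b a : ℕ, 1 ≤ b → b ≤ b₀ → ¬ At S e₁ ν θ T b a t j) →
      Fr S e₁ ν θ F T b₀ t := by
    intro t ht j hj
    by_contra hcon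
    apply ht
    refine ⟨j, hj, fun b a h1 h2 h3 => hcon ⟨b, a, h1, h2, h3⟩⟩
  have hbb₀ : ∀ b : ℕ, b ≤ b₀ → (b : ℝ) * (c₂ / b₀) ≤ c₂ := by
    intro b hb
    have h1 : (b : ℝ) ≤ b₀ := by exact_mod_cast hb
    calc (b : ℝ) * (c₂ / b₀) ≤ b₀ * (c₂ / b₀) := mul_le_mul_of_nonneg_right h1 hζ.le
      _ = c₂ := by field_simp
  -- every pair has a small mass
  have hpair : ∀ b ∈ Icc 1 b₀, ∀ χ : DirichletCharacter ℂ b,
      ∑ t ∈ In (cut S Δ) 1, ‖HC S θ φ F T b χ t‖ ^ 2 ≤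
        1 / (4 * (W + 1)) * (cut S Δ).N := by
    intro b hb χ
    rw [mem_Icc] at hb
    by_contra hcon
    push Not at hcon
    refine hF (cut S Δ) hC.ok2 hSK hX₁ b hb.1 hb.2 χ (fun t => HC S θ φ F T b χ t) ?_ hcon.le
      ?_ ?_
    · intro t
      refine (num_HC S θ φ F T b r₀ χ t (hC.sub t)).trans ?_
      have h1 : (b : ℝ) ≤ b₀ := by exact_mod_cast hb.2
      exact mul_le_mul_of_nonneg_right h1 (by linarith)
    · intro w hw1 hwV
      have hwV' : w ≤ S.V := hwV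
      have h1 : (cut S Δ).cnt (fun t => t + (w : ℤ) ∈ (cut S Δ).I ∧
          c₂ < ‖HC S θ φ F T b χ (t + w) - HC S θ φ F T b χ t‖) ≤
          (cut S Δ).cnt (fun t => t + (w : ℤ) ∈ S.I ∧
            ¬ Bij (RS S e₀ θ φ w t) (F t) (F (t + w))) +
          (cut S Δ).cnt (fun t => ∃ j ∈ F t, ∀ b a : ℕ, 1 ≤ b → b ≤ b₀ →
            ¬ At S e₁ ν θ T b a t j) := by
        refine Par.cnt_le_add ?_
        intro t ht hE
        by_contra hno
        push Not at hno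
        obtain ⟨hn1, hn2⟩ := hno
        have hn1' : Bij (RS S e₀ θ φ w t) (F t) (F (t + w)) := hn1 (hsub hE.1)
        have hn2' : Fr S e₁ ν θ F T b₀ t := by
          intro j hj
          obtain ⟨b', a', h1, h2, h3⟩ := hn2 j hj
          exact ⟨b', a', h1, h2, h3⟩
        have hA : ∀ a, ‖FA S θ φ F T b a (t + w) - FA S θ φ F T b a t‖ ≤ c₂ / b₀ := by
          intro a
          exact hFAS S e₀ e₁ ν T θ φ F w b a t hC.ok hSK hX₃ hC.e0 he₀ζ he₀32 he₁ he₁ζ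
            he₁32 hν.le (by linarith) hT (hsub ht) (hsub hE.1) hwV' hC.sep hb.1 hb.2 hn1' hn2'
        have h2 := num_sh S θ φ F T (c₂ / b₀) b χ t (t + w) hA
        have h3 := hbb₀ b hb.2
        linarith [hE.2]
      have h2 := hcnt (fun t => t + (w : ℤ) ∈ S.I ∧
            ¬ Bij (RS S e₀ θ φ w t) (F t) (F (t + w)))
      have h3 := hC.inv.sh w hw1 hwV'
      have h4 : k₃ * (13 / 12 * (cut S Δ).N) + k₃ * (cut S Δ).N ≤ c₂ * (cut S Δ).N := by
        have h6 := mul_le_mul_of_nonneg_right hk25 hN2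
        linarith
      linarith
    · have hPr : Pr S.P (S.P ^ B) ⊆ S.Q := by
        intro p hp
        have hP0 : 0 ≤ S.P ^ B := pow_nonneg (by linarith) _
        rw [mem_Pr hP0] at hp
        unfold Par.Q
        rw [mem_Pr (pow_nonneg (by linarith) _)]
        refine ⟨hp.1, hp.2.1.trans ?_, hp.2.2⟩
        exact pow_le_pow_right₀ (by linarith) (by rw [hSK]; omega)
      have hbd : ∀ p ∈ Pr S.P (S.P ^ B), (cut S Δ).cnt (fun t => t - S.l p ∈ (cut S Δ).I ∧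
          c₂ < ‖HC S θ φ F T b χ (t - S.l p) + χ (p : ZMod b) * HC S θ φ F T b χ t‖) ≤
          S.cnt (fun t => t - S.l p ∈ S.I ∧
            ¬ Bij (RE S e₀ θ φ p t) (F t) (F (t - S.l p))) + k₃ * (cut S Δ).N := by
        intro p hp
        have hpQ := hPr hp
        rw [mem_Pr (pow_nonneg (by linarith) _)] at hp
        have hcop : Nat.Coprime p b := by
          rw [hp.2.2.coprime_iff_not_dvd]
          intro hdvd
          have h1 : p ≤ b := Nat.le_of_dvd hb.1 hdvd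
          have h2 : (p : ℝ) ≤ b₀ := by exact_mod_cast h1.trans hb.2
          have h3 : (b₀ : ℝ) ≤ S.L := hLL S.X hX₆
          have h4 : S.L + 1 ≤ S.P := by
            have := Real.add_one_le_exp (LL S.X)
            exact this
          linarith [hp.1]
        have h1 : (cut S Δ).cnt (fun t => t - S.l p ∈ (cut S Δ).I ∧
            c₂ < ‖HC S θ φ F T b χ (t - S.l p) + χ (p : ZMod b) * HC S θ φ F T b χ t‖) ≤
            (cut S Δ).cnt (fun t => t - S.l p ∈ S.I ∧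
              ¬ Bij (RE S e₀ θ φ p t) (F t) (F (t - S.l p))) +
            (cut S Δ).cnt (fun t => ∃ j ∈ F t, ∀ b a : ℕ, 1 ≤ b → b ≤ b₀ →
              ¬ At S e₁ ν θ T b a t j) := by
          refine Par.cnt_le_add ?_
          intro t ht hE
          by_contra hno
          push Not at hno
          obtain ⟨hn1, hn2⟩ := hno
          have hn1' : Bij (RE S e₀ θ φ p t) (F t) (F (t - S.l p)) := hn1 (hsub hE.1)
          have hn2' : Fr S e₁ ν θ F T b₀ t := by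
            intro j hj
            obtain ⟨b', a', h1, h2, h3⟩ := hn2 j hj
            exact ⟨b', a', h1, h2, h3⟩
          have h2 := hHCE S T (c₂ / b₀) θ φ F p b t (t - S.l p) χ hb.1 hcop (by
            intro a a' _ _ haa
            exact hFAE S e₀ e₁ ν T θ φ F p b a a' t hC.ok hSK hX₂ hC.e0 (by linarith) he₀32
              he₁ he₁32 hν.le (by linarith) hT (hsub ht) (hsub hE.1) hpQ hC.sep hb.1 hb.2
              haa hn1' hn2')
          have h3 := hbb₀ b hb.2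
          linarith [hE.2]
        have h2 := hcnt (fun t => t - S.l p ∈ S.I ∧
              ¬ Bij (RE S e₀ θ φ p t) (F t) (F (t - S.l p)))
        linarith
      have hinv := hC.inv.pr
      have hw := hW5 S.X hX₅
      calc ∑ p ∈ Pr S.P (S.P ^ B), 1 / (p : ℝ) * (cut S Δ).cnt
            (fun t => t - S.l p ∈ (cut S Δ).I ∧
            c₂ < ‖HC S θ φ F T b χ (t - S.l p) + χ (p : ZMod b) * HC S θ φ F T b χ t‖)
          ≤ ∑ p ∈ Pr S.P (S.P ^ B), (1 / (p : ℝ) * S.cnt (fun t => t - S.l p ∈ S.I ∧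
            ¬ Bij (RE S e₀ θ φ p t) (F t) (F (t - S.l p))) +
              1 / (p : ℝ) * (k₃ * (cut S Δ).N)) := by
            refine sum_le_sum fun p hp => ?_
            rw [← mul_add]
            exact mul_le_mul_of_nonneg_left (hbd p hp) (by positivity)
        _ = ∑ p ∈ Pr S.P (S.P ^ B), 1 / (p : ℝ) * S.cnt (fun t => t - S.l p ∈ S.I ∧
            ¬ Bij (RE S e₀ θ φ p t) (F t) (F (t - S.l p))) +
            (∑ p ∈ Pr S.P (S.P ^ B), 1 / (p : ℝ)) * (k₃ * (cut S Δ).N) := by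
            rw [sum_add_distrib, sum_mul]
        _ ≤ ∑ p ∈ S.Q, 1 / (p : ℝ) * S.cnt (fun t => t - S.l p ∈ S.I ∧
            ¬ Bij (RE S e₀ θ φ p t) (F t) (F (t - S.l p))) + B * (k₃ * (cut S Δ).N) := by
            refine add_le_add ?_ ?_
            · exact sum_le_sum_of_subset_of_nonneg hPr fun p _ _ =>
                mul_nonneg (by positivity) (Par.cnt_nonneg _)
            · exact mul_le_mul_of_nonneg_right hw (by positivity)
        _ ≤ k₃ * (13 / 12 * (cut S Δ).N) + B * (k₃ * (cut S Δ).N) := by linarith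
        _ ≤ c₂ * (cut S Δ).N := by
            have h6 := mul_le_mul_of_nonneg_right hk13 hN2
            linarith
  -- the total mass is large
  have hrk := (hcnt (fun t => (F t).card ≠ s)).trans hC.rk
  have hInc := num_In (cut S Δ) hh (by
    have h2 : (cut S Δ).K = S.K := rfl
    have h3 : (cut S Δ).L = S.L := rfl
    rw [h2, h3]
    linarith) hC.ok2.hI1 hN2
  have hgood : ((In (cut S Δ) 1).card : ℝ) ≤
      ∑ t ∈ In (cut S Δ) 1, ∑ b ∈ Icc 1 b₀, ∑ χ : DirichletCharacter ℂ b,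
        ‖HC S θ φ F T b χ t‖ ^ 2 +
      (cut S Δ).cnt (fun t => ∃ j ∈ F t, ∀ b a : ℕ, 1 ≤ b → b ≤ b₀ →
        ¬ At S e₁ ν θ T b a t j) + (cut S Δ).cnt (fun t => (F t).card ≠ s) := by
    obtain ⟨G, hG⟩ : ∃ G : Finset ℤ, G = (In (cut S Δ) 1).filter (fun t =>
      1 ≤ ∑ b ∈ Icc 1 b₀, ∑ χ : DirichletCharacter ℂ b, ‖HC S θ φ F T b χ t‖ ^ 2) := ⟨_, rfl⟩
    have h1 : In (cut S Δ) 1 ⊆ G ∪ ((cut S Δ).fl (fun t => ∃ j ∈ F t, ∀ b a : ℕ, 1 ≤ b →
        b ≤ b₀ → ¬ At S e₁ ν θ T b a t j) ∪ (cut S Δ).fl (fun t => (F t).card ≠ s)) := by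
      intro t ht
      have htI : t ∈ (cut S Δ).I := by
        unfold In at ht
        exact (mem_filter.1 ht).1
      rw [mem_union, mem_union, Par.mem_fl, Par.mem_fl]
      by_cases hb1 : ∃ j ∈ F t, ∀ b a : ℕ, 1 ≤ b → b ≤ b₀ → ¬ At S e₁ ν θ T b a t j
      · exact Or.inr (Or.inl ⟨htI, hb1⟩)
      · by_cases hb2 : (F t).card ≠ s
        · exact Or.inr (Or.inr ⟨htI, hb2⟩)
        · left
          rw [hG, mem_filter]
          refine ⟨ht, hMAS S e₁ ν T θ φ F b₀ t hC.ok he₁ (by linarith) hν.le (by linarith)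
            (hsub htI) hC.sep ?_ (hFr t hb1)⟩
          intro h0
          push Not at hb2
          rw [h0, card_empty] at hb2
          have := hC.s1
          omega
    have h2 := card_le_card h1
    have h3 := card_union_le G ((cut S Δ).fl (fun t => ∃ j ∈ F t, ∀ b a : ℕ, 1 ≤ b →
        b ≤ b₀ → ¬ At S e₁ ν θ T b a t j) ∪ (cut S Δ).fl (fun t => (F t).card ≠ s))
    have h4 := card_union_le ((cut S Δ).fl (fun t => ∃ j ∈ F t, ∀ b a : ℕ, 1 ≤ b →
        b ≤ b₀ → ¬ At S e₁ ν θ T b a t j)) ((cut S Δ).fl (fun t => (F t).card ≠ s))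
    have h5 : ((In (cut S Δ) 1).card : ℝ) ≤ G.card + ((((cut S Δ).fl (fun t => ∃ j ∈ F t,
        ∀ b a : ℕ, 1 ≤ b → b ≤ b₀ → ¬ At S e₁ ν θ T b a t j)).card : ℝ) +
        (((cut S Δ).fl (fun t => (F t).card ≠ s)).card : ℝ)) := by
      exact_mod_cast (h2.trans h3).trans (Nat.add_le_add_left h4 _)
    have h6 : (G.card : ℝ) ≤ ∑ t ∈ In (cut S Δ) 1, ∑ b ∈ Icc 1 b₀,
        ∑ χ : DirichletCharacter ℂ b, ‖HC S θ φ F T b χ t‖ ^ 2 := by
      calc (G.card : ℝ) = ∑ _t ∈ G, (1 : ℝ) := by rw [sum_const, nsmul_eq_mul, mul_one]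
        _ ≤ ∑ t ∈ G, ∑ b ∈ Icc 1 b₀, ∑ χ : DirichletCharacter ℂ b,
            ‖HC S θ φ F T b χ t‖ ^ 2 := by
            refine sum_le_sum fun t ht => ?_
            rw [hG, mem_filter] at ht
            exact ht.2
        _ ≤ _ := by
            refine sum_le_sum_of_subset_of_nonneg ?_ fun t _ _ => ?_
            · rw [hG]
              exact filter_subset _ _
            · exact sum_nonneg fun b _ => sum_nonneg fun χ _ => by positivity
    unfold Par.cnt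
    linarith
  have hswap : ∑ t ∈ In (cut S Δ) 1, ∑ b ∈ Icc 1 b₀, ∑ χ : DirichletCharacter ℂ b,
      ‖HC S θ φ F T b χ t‖ ^ 2 = ∑ b ∈ Icc 1 b₀, ∑ χ : DirichletCharacter ℂ b,
        ∑ t ∈ In (cut S Δ) 1, ‖HC S θ φ F T b χ t‖ ^ 2 := by
    rw [sum_comm]
    refine sum_congr rfl fun b _ => ?_
    rw [sum_comm]
  have htot : ∑ b ∈ Icc 1 b₀, ∑ χ : DirichletCharacter ℂ b,
      ∑ t ∈ In (cut S Δ) 1, ‖HC S θ φ F T b χ t‖ ^ 2 ≤
        W * (1 / (4 * (W + 1)) * (cut S Δ).N) := by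
    calc ∑ b ∈ Icc 1 b₀, ∑ χ : DirichletCharacter ℂ b,
        ∑ t ∈ In (cut S Δ) 1, ‖HC S θ φ F T b χ t‖ ^ 2
        ≤ ∑ b ∈ Icc 1 b₀, ∑ _χ : DirichletCharacter ℂ b,
          1 / (4 * (W + 1)) * (cut S Δ).N :=
          sum_le_sum fun b hb => sum_le_sum fun χ _ => hpair b hb χ
      _ = W * (1 / (4 * (W + 1)) * (cut S Δ).N) := by
          rw [hW, sum_mul]
          refine sum_congr rfl fun b _ => ?_
          rw [sum_const, nsmul_eq_mul]
  have hfin : W * (1 / (4 * (W + 1)) * (cut S Δ).N) ≤ 1 / 4 * (cut S Δ).N := by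
    rw [← mul_assoc]
    exact mul_le_mul_of_nonneg_right hηW hN2
  have hk100 : k₃ * (cut S Δ).N ≤ 1 / 100 * (cut S Δ).N :=
    mul_le_mul_of_nonneg_right hκ₃ hN2
  linarith

end Pool.Agent.H85.GS3
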