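import Pool.Agent.H78.GS.TA3

/-!
# Theorem (G), section 3a, row AUNI: separated matched bundles are invariant
-/

set_option autoImplicit false

open Finset Pool.Agent.H6.N4D Pool.Agent.H78.GS

namespace Pool.Agent.H85.GS3

/-- the step of a prime number changes `x` by a factor at least `1 / (2 p)` -/
lemma uni_step {S : Par} {p : ℕ} {t : ℤ} (_hh : 0 < S.h) (hh1 : S.h ≤ 1) (hp : 1 ≤ p)
    (hl : |S.h * S.l p - Real.log p| ≤ S.h / 2) :
    S.x (t - S.l p) * p ≤ 2 * S.x t := by
  have hp0 : (0 : ℝ) < p := by exact_mod_cast hp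
  have hx : 0 < S.x t := Par.x_pos t
  rw [Par.x_sub]
  have h1 : Real.exp (-(S.h * (S.l p : ℝ))) ≤ 2 / p := by
    have h2 : -(S.h * (S.l p : ℝ)) ≤ S.h / 2 - Real.log p := by
      have := (abs_le.1 hl).1
      linarith
    refine (Real.exp_le_exp.2 h2).trans ?_
    rw [Real.exp_sub, Real.exp_log hp0]
    refine div_le_div_of_nonneg_right ?_ hp0.le
    have h3 : Real.exp (S.h / 2) ≤ Real.exp (1 / 2) := Real.exp_le_exp.2 (by linarith)
    have h4 : Real.exp (1 / 2) * Real.exp (1 / 2) ≤ 2 * 2 := by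
      rw [← Real.exp_add]
      have := Real.exp_one_lt_d9
      have e : (1 / 2 + 1 / 2 : ℝ) = 1 := by norm_num
      rw [e]
      linarith
    have h5 : Real.exp (1 / 2) ≤ 2 := by
      by_contra hc
      push Not at hc
      have := Real.exp_pos (1 / 2)
      nlinarith
    linarith
  calc S.x t * Real.exp (-(S.h * (S.l p : ℝ))) * p ≤ S.x t * (2 / p) * p := by
        refine mul_le_mul_of_nonneg_right ?_ hp0.le
        exact mul_le_mul_of_nonneg_left h1 hx.le
    _ = 2 * S.x t := by field_simp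

/-- small shifts -/
lemma uni_shift {S : Par} {w : ℕ} {t : ℤ} (hw : (w : ℝ) * S.h ≤ 1 / 2) :
    S.x (t + w) ≤ 2 * S.x t := by
  have hx : 0 < S.x t := Par.x_pos t
  rw [Par.x_add]
  have h3 : Real.exp (S.h * ((w : ℤ) : ℝ)) ≤ Real.exp (1 / 2) := by
    apply Real.exp_le_exp.2
    push_cast
    linarith
  have h4 : Real.exp (1 / 2) * Real.exp (1 / 2) ≤ 2 * 2 := by
    rw [← Real.exp_add]
    have := Real.exp_one_lt_d9
    have e : (1 / 2 + 1 / 2 : ℝ) = 1 := by norm_num
    rw [e]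
    linarith
  have h5 : Real.exp (1 / 2) ≤ 2 := by
    by_contra hc
    push Not at hc
    have := Real.exp_pos (1 / 2)
    nlinarith
  nlinarith

lemma uni_bij {R : ℕ → ℕ → Prop} {A A' : Finset ℕ} (hM : Mat R A A')
    (h1 : ∀ j ∈ A, ∀ i ∈ A', ∀ i' ∈ A', R j i → R j i' → i = i')
    (h2 : ∀ i ∈ A', ∀ j ∈ A, ∀ j' ∈ A, R j i → R j' i → j = j') : Bij R A A' := by
  refine ⟨fun j hj => ?_, fun i hi => ?_⟩
  · obtain ⟨i, hi, hR⟩ := hM.1 j hj
    exact ⟨i, ⟨hi, hR⟩, fun i' hi' => h1 j hj i' hi'.1 i hi hi'.2 hR⟩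
  · obtain ⟨j, hj, hR⟩ := hM.2 i hi
    exact ⟨j, ⟨hj, hR⟩, fun j' hj' => h2 i hi j' hj'.1 j hj hj'.2 hR⟩

theorem pf_UNI (hEXC : T_EXC) (hSIZ : T_SIZ) : T_UNI := by
  intro K r₀ ε hK hε
  obtain ⟨X₁, hX₁⟩ := hSIZ
  obtain ⟨X₂, hX₂⟩ := LL_large (2 * (r₀ : ℝ) ^ 2 / ε)
  refine ⟨max X₁ X₂, ?_⟩
  intro S e₀ c₀ F θ φ hS hSK hX h0 h0' hB
  obtain ⟨s1, s2, s3, s4, s5, s6, s7, s8, s9, s10, s11, s12, s13⟩ :=
    hX₁ S hS ((le_max_left _ _).trans hX)
  have hL : 2 * (r₀ : ℝ) ^ 2 / ε ≤ S.L := hX₂ S.X ((le_max_right _ _).trans hX)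
  have hP : 2 * (r₀ : ℝ) ^ 2 / ε ≤ S.P := by
    have : S.L + 1 ≤ S.P := Real.add_one_le_exp _
    linarith
  have hP0 := Par.P_pos (S := S)
  have hh := hS.hh
  have hr := hS.hr0
  have hh1 : S.h ≤ 1 := by
    have : S.rho ^ 4 ≤ 1 := pow_le_one₀ hr.le (by linarith)
    linarith
  have hrx : ∀ t : ℤ, 0 < S.rho * S.x t := fun t => mul_pos hr (Par.x_pos t)
  -- two sheets over the same point related to the same sheet
  have hsame : ∀ t ∈ S.I, ∀ i ∈ F t, ∀ j ∈ F t,
      nd (θ t i - θ t j) ≤ 2 * e₀ / (S.rho * S.x t) → i = j := by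
    intro t ht i hi j hj hd
    by_contra hne
    have h1 := (hB.sep t ht i hi j hj hne).trans hd
    rw [div_le_div_iff_of_pos_right (hrx t)] at h1
    linarith
  refine ⟨?_, ?_⟩
  · -- the edges
    have hEX := hEXC S (range r₀ ×ˢ range r₀) (fun t j j' => θ t j - θ t j')
      (fun t => 2 * e₀ / (S.rho * S.x t)) hS (by
        intro t ht
        have hx2 := (s9 t ht).1
        refine ⟨by have := hrx t; positivity, ?_⟩
        rw [mul_div_assoc', div_lt_one (hrx t)]
        refine lt_of_lt_of_le ?_ hx2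
        have e1 : S.P ^ (100 * S.K) = S.P ^ (4 * S.K) * S.P ^ (96 * S.K) := by
          rw [← pow_add]
          congr 1
          omega
        have e2 : 1 ≤ S.P ^ (96 * S.K) := one_le_pow₀ (by linarith)
        have e3 : 0 < S.P ^ (4 * S.K) := by positivity
        rw [e1]
        nlinarith)
    have hcard : ((range r₀ ×ˢ range r₀).card : ℝ) = (r₀ : ℝ) ^ 2 := by
      rw [card_product, card_range]
      push_cast
      ring
    rw [hcard] at hEX
    have hr2 : (r₀ : ℝ) ^ 2 / S.P * S.N ≤ ε / 2 * S.N := by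
      refine mul_le_mul_of_nonneg_right ?_ s12.le
      rw [div_le_iff₀ hP0]
      rw [div_le_iff₀ hε] at hP
      linarith
    have hQ1 : ∀ p ∈ S.Q, 1 ≤ p := fun p hp => by
      have : p.Prime := ((mem_Pr (by positivity)).1 hp).2.2
      exact this.one_le
    have hone : ∀ p ∈ S.Q, S.cnt (fun t => t - S.l p ∈ S.I ∧
        ¬ Bij (RE S e₀ θ φ p t) (F t) (F (t - S.l p))) ≤
        S.cnt (fun t => t - S.l p ∈ S.I ∧ ¬ Mat (RE S e₀ θ φ p t) (F t) (F (t - S.l p))) +
        S.cnt (fun t => ∃ k ∈ range r₀ ×ˢ range r₀,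
          nd (p * (θ t k.1 - θ t k.2)) ≤ p * (2 * e₀ / (S.rho * S.x t)) ∧
          2 * e₀ / (S.rho * S.x t) < nd (θ t k.1 - θ t k.2)) := by
      intro p hp
      have hp1 := hQ1 p hp
      have hp0 : (0 : ℝ) < p := by exact_mod_cast hp1
      refine Par.cnt_le_add ?_
      rintro t ht ⟨htp, hnb⟩
      by_contra hc
      push Not at hc
      obtain ⟨hc1, hc2⟩ := hc
      have hM := hc1 htp
      refine hnb (uni_bij hM ?_ ?_)
      · intro j hj i hi i' hi' hR hR'
        by_contra hne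
        have h1 := hB.sep _ htp i hi i' hi' hne
        have h2 := nd_tri (θ (t - S.l p) i) (p * θ t j) (θ (t - S.l p) i')
        rw [nd_sub_comm (p * θ t j)] at h2
        have h3 : 1 / (S.rho * S.x (t - S.l p)) ≤ 2 * (p * e₀ / (S.rho * S.x t)) := by
          have := hR.1
          have := hR'.1
          linarith
        have h4 := uni_step (t := t) hh hh1 hp1 (s10 p hp1)
        have h5 : p / (2 * (S.rho * S.x t)) ≤ 1 / (S.rho * S.x (t - S.l p)) := by
          rw [div_le_div_iff₀ (by have := hrx t; positivity) (hrx _)]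
          nlinarith
        have h6 := h5.trans h3
        rw [mul_div_assoc', div_le_div_iff₀ (by have := hrx t; positivity) (hrx t)] at h6
        have h7 := hrx t
        have h8 : 0 < p * (S.rho * S.x t) := mul_pos hp0 h7
        have h9 : e₀ * (p * (S.rho * S.x t)) ≤ 1 / 8 * (p * (S.rho * S.x t)) :=
          mul_le_mul_of_nonneg_right h0' h8.le
        linarith
      · intro i hi j hj j' hj' hR hR'
        have hj0 := hB.sub t hj
        have hj0' := hB.sub t hj'
        have h1 : nd (p * (θ t j - θ t j')) ≤ p * (2 * e₀ / (S.rho * S.x t)) := by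
          have h2 := nd_tri (p * θ t j) (θ (t - S.l p) i) (p * θ t j')
          rw [nd_sub_comm (p * θ t j) (θ (t - S.l p) i)] at h2
          have h3 := hR.1
          have h4 := hR'.1
          have e1 : (p : ℝ) * (θ t j - θ t j') = p * θ t j - p * θ t j' := by ring
          have e2 : (p : ℝ) * (2 * e₀ / (S.rho * S.x t)) =
              p * e₀ / (S.rho * S.x t) + p * e₀ / (S.rho * S.x t) := by ring
          rw [e1, e2]
          linarith
        exact hsame t ht j hj j' hj' (hc2 (j, j') (mem_product.2 ⟨hj0, hj0'⟩) h1)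
    calc ∑ p ∈ S.Q, 1 / (p : ℝ) * S.cnt (fun t => t - S.l p ∈ S.I ∧
          ¬ Bij (RE S e₀ θ φ p t) (F t) (F (t - S.l p)))
        ≤ ∑ p ∈ S.Q, (1 / (p : ℝ) * S.cnt (fun t => t - S.l p ∈ S.I ∧
            ¬ Mat (RE S e₀ θ φ p t) (F t) (F (t - S.l p))) +
          1 / (p : ℝ) * S.cnt (fun t => ∃ k ∈ range r₀ ×ˢ range r₀,
            nd (p * (θ t k.1 - θ t k.2)) ≤ p * (2 * e₀ / (S.rho * S.x t)) ∧
            2 * e₀ / (S.rho * S.x t) < nd (θ t k.1 - θ t k.2))) := by
          refine sum_le_sum fun p hp => ?_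
          rw [← mul_add]
          exact mul_le_mul_of_nonneg_left (hone p hp) (by positivity)
      _ ≤ ε / 2 * S.N + (r₀ : ℝ) ^ 2 / S.P * S.N := by
          rw [sum_add_distrib]
          exact add_le_add hB.edg hEX
      _ ≤ ε * S.N := by linarith
  · -- the small shifts
    intro w _ hwV
    have hwh : (w : ℝ) * S.h ≤ S.rho ^ 2 := by
      have h1 : (w : ℝ) * S.h ≤ S.V * S.h := by
        have : (w : ℝ) ≤ S.V := by exact_mod_cast hwV
        exact mul_le_mul_of_nonneg_right this hh.le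
      linarith
    have hwr : (w : ℝ) * S.h ≤ S.rho / 4 := by nlinarith
    have hw2 : (w : ℝ) * S.h ≤ 1 / 2 := by linarith
    have h1 := hB.shf w hwr
    have h2 : S.cnt (fun t => t + (w : ℤ) ∈ S.I ∧
        ¬ Bij (RS S e₀ θ φ w t) (F t) (F (t + w))) ≤
        S.cnt (fun t => t + (w : ℤ) ∈ S.I ∧ ¬ Mat (RS S e₀ θ φ w t) (F t) (F (t + w))) := by
      refine Par.cnt_mono ?_
      rintro t ht ⟨htw, hnb⟩
      refine ⟨htw, fun hM => hnb (uni_bij hM ?_ ?_)⟩
      · intro j hj i hi i' hi' hR hR'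
        by_contra hne
        have h1 := hB.sep _ htw i hi i' hi' hne
        have h2 := nd_tri (θ (t + w) i) (θ t j) (θ (t + w) i')
        rw [nd_sub_comm (θ t j)] at h2
        have h3 : 1 / (S.rho * S.x (t + w)) ≤ 2 * e₀ / (S.rho * S.x t) := by
          have a := hR.1
          have b := hR'.1
          have e2 : 2 * e₀ / (S.rho * S.x t) =
              e₀ / (S.rho * S.x t) + e₀ / (S.rho * S.x t) := by ring
          rw [e2]
          linarith
        have h4 := uni_shift (t := t) hw2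
        rw [div_le_div_iff₀ (hrx _) (hrx t)] at h3
        have h7 := hrx t
        have h8 : S.rho * S.x (t + w) ≤ 2 * (S.rho * S.x t) := by nlinarith
        have h9 : 2 * e₀ * (S.rho * S.x (t + w)) ≤ 2 * e₀ * (2 * (S.rho * S.x t)) :=
          mul_le_mul_of_nonneg_left h8 (by linarith)
        nlinarith
      · intro i _ j hj j' hj' hR hR'
        refine hsame t ht j hj j' hj' ?_
        have h2 := nd_tri (θ t j) (θ (t + w) i) (θ t j')
        rw [nd_sub_comm (θ t j) (θ (t + w) i)] at h2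
        have a := hR.1
        have b := hR'.1
        have e2 : 2 * e₀ / (S.rho * S.x t) =
            e₀ / (S.rho * S.x t) + e₀ / (S.rho * S.x t) := by ring
        rw [e2]
        linarith
    refine h2.trans (h1.trans ?_)
    have := mul_nonneg hε.le s12.le
    linarith

end Pool.Agent.H85.GS3
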